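import Mathlib

/-!
Selectively sequentially pseudocompact (SSP) abelian groups: definitions and basic lemmas.
-/

namespace Pool.Agent.SSP

open Filter Topology Set Pointwise

/-- A topological space is selectively sequentially pseudocompact. -/
def IsSSP (X : Type*) [TopologicalSpace X] : Prop :=
  ∀ U : ℕ → Set X, (∀ n, IsOpen (U n)) → (∀ n, (U n).Nonempty) →
    ∃ x : ℕ → X, (∀ n, x n ∈ U n) ∧
      ∃ (k : ℕ → ℕ) (y : X), StrictMono k ∧ Tendsto (fun i => x (k i)) atTop (𝓝 y)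

variable {G : Type*} [AddCommGroup G] [TopologicalSpace G]

/-- A chain of neighbourhoods of `0`. -/
structure IsChn (W : ℕ → Set G) : Prop where
  isOpen : ∀ n, IsOpen (W n)
  zero_mem : ∀ n, (0 : G) ∈ W n
  neg_mem : ∀ n x, x ∈ W n → -x ∈ W n
  add_mem : ∀ n x y, x ∈ W (n + 1) → y ∈ W (n + 1) → x + y ∈ W n

/-- Closed `G_δ`-subgroups given by chains. -/
def Lam (N : AddSubgroup G) : Prop := ∃ W : ℕ → Set G, IsChn W ∧ ∀ x, x ∈ N ↔ ∀ n, x ∈ W n

theorem IsChn.succ_subset {W : ℕ → Set G} (hW : IsChn W) (n : ℕ) : W (n + 1) ⊆ W n := by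
  intro x hx
  have := hW.add_mem n x 0 hx (hW.zero_mem _)
  simpa using this

theorem IsChn.anti {W : ℕ → Set G} (hW : IsChn W) : Antitone W :=
  antitone_nat_of_succ_le hW.succ_subset

theorem IsChn.sub_mem {W : ℕ → Set G} (hW : IsChn W) {n : ℕ} {x y : G}
    (hx : x ∈ W (n + 1)) (hy : y ∈ W (n + 1)) : x - y ∈ W n := by
  rw [sub_eq_add_neg]
  exact hW.add_mem n _ _ hx (hW.neg_mem _ _ hy)

/-- The subgroup of a chain. -/
def IsChn.sub {W : ℕ → Set G} (hW : IsChn W) : AddSubgroup G where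
  carrier := {x | ∀ n, x ∈ W n}
  zero_mem' := fun n => hW.zero_mem n
  add_mem' := fun {a b} ha hb n => hW.add_mem n a b (ha _) (hb _)
  neg_mem' := fun {a} ha n => hW.neg_mem n a (ha n)

theorem IsChn.lam {W : ℕ → Set G} (hW : IsChn W) : Lam hW.sub := ⟨W, hW, fun _ => Iff.rfl⟩

theorem IsChn.mem_nhds {W : ℕ → Set G} (hW : IsChn W) (n : ℕ) : W n ∈ 𝓝 (0 : G) :=
  (hW.isOpen n).mem_nhds (hW.zero_mem n)

variable [IsTopologicalAddGroup G]

theorem exists_half (O : Set G) (hO : O ∈ 𝓝 (0 : G)) :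
    ∃ V : Set G, IsOpen V ∧ (0 : G) ∈ V ∧ (∀ x ∈ V, -x ∈ V) ∧ V ⊆ O ∧
      ∀ x ∈ V, ∀ y ∈ V, x + y ∈ O := by
  obtain ⟨V, hV, h0, hVV⟩ := exists_open_nhds_zero_add_subset hO
  refine ⟨(V ∩ -V), hV.inter hV.neg, ⟨h0, by simpa using h0⟩, ?_, ?_, ?_⟩
  · rintro x ⟨hx, hx'⟩
    exact ⟨by simpa using hx', by simpa using hx⟩
  · rintro x ⟨hx, _⟩
    have : x + 0 ∈ V + V := Set.add_mem_add hx h0
    have := hVV this
    simpa using this
  · rintro x ⟨hx, _⟩ y ⟨hy, _⟩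
    exact hVV (Set.add_mem_add hx hy)

theorem exists_chain (O : ℕ → Set G) (hO : ∀ n, O n ∈ 𝓝 (0 : G)) :
    ∃ W : ℕ → Set G, IsChn W ∧ ∀ n, W n ⊆ O n := by
  classical
  choose! h h1 h2 h3 h4 h5 using (fun O : Set G => fun hO : O ∈ 𝓝 (0 : G) => exists_half O hO)
  let W : ℕ → Set G := fun n => Nat.rec (h (O 0)) (fun n V => h (V ∩ O (n + 1))) n
  have hnh : ∀ n, W n ∈ 𝓝 (0 : G) := by
    intro n
    induction n with
    | zero => exact (h1 _ (hO 0)).mem_nhds (h2 _ (hO 0))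
    | succ n ih =>
      have : W n ∩ O (n + 1) ∈ 𝓝 (0 : G) := inter_mem ih (hO _)
      exact (h1 _ this).mem_nhds (h2 _ this)
  have hin : ∀ n, W n ∩ O (n + 1) ∈ 𝓝 (0 : G) := fun n => inter_mem (hnh n) (hO _)
  refine ⟨W, ⟨?_, ?_, ?_, ?_⟩, ?_⟩
  · intro n
    cases n with
    | zero => exact h1 _ (hO 0)
    | succ n => exact h1 _ (hin n)
  · intro n
    cases n with
    | zero => exact h2 _ (hO 0)
    | succ n => exact h2 _ (hin n)
  · intro n
    cases n with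
    | zero => exact h3 _ (hO 0)
    | succ n => exact h3 _ (hin n)
  · intro n x y hx hy
    exact (h5 _ (hin n) x hx y hy).1
  · intro n
    cases n with
    | zero => exact h4 _ (hO 0)
    | succ n => exact fun x hx => (h4 _ (hin n) hx).2

omit [IsTopologicalAddGroup G] in
theorem lam_top : Lam (⊤ : AddSubgroup G) :=
  ⟨fun _ => univ, ⟨fun _ => isOpen_univ, fun _ => mem_univ _, fun _ _ _ => mem_univ _,
    fun _ _ _ _ _ => mem_univ _⟩, fun x => by simp⟩

/-- a common refinement of countably many chains -/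
theorem exists_refine (W : ℕ → ℕ → Set G) (hW : ∀ j, IsChn (W j)) (O : ℕ → Set G)
    (hO : ∀ n, O n ∈ 𝓝 (0 : G)) :
    ∃ V : ℕ → Set G, IsChn V ∧ (∀ n, V n ⊆ O n) ∧ ∀ j k n, j ≤ n → k ≤ n → V n ⊆ W j k := by
  obtain ⟨V, hV, hVO⟩ := exists_chain (fun n => O n ∩ ⋂ j ∈ Finset.range (n + 1), W j n) (by
    intro n
    refine inter_mem (hO n) ?_
    rw [Filter.biInter_finset_mem]
    intro j _
    exact (hW j).mem_nhds n)
  refine ⟨V, hV, fun n x hx => (hVO n hx).1, ?_⟩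
  intro j k n hj hk x hx
  have h1 := (hVO n hx).2
  rw [mem_iInter₂] at h1
  exact (hW j).anti hk (h1 j (Finset.mem_range.2 (by omega)))

theorem exists_lam_le (N : ℕ → AddSubgroup G) (hN : ∀ j, Lam (N j)) (O : ℕ → Set G)
    (hO : ∀ n, O n ∈ 𝓝 (0 : G)) :
    ∃ M : AddSubgroup G, Lam M ∧ (∀ j, M ≤ N j) ∧ ∀ x ∈ M, ∀ n, x ∈ O n := by
  choose W hW hWN using hN
  obtain ⟨V, hV, hVO, hVW⟩ := exists_refine W hW O hO
  refine ⟨hV.sub, hV.lam, ?_, ?_⟩
  · intro j x hx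
    rw [hWN]
    intro k
    exact hVW j k (max j k) (le_max_left _ _) (le_max_right _ _) (hx _)
  · intro x hx n
    exact hVO n (hx n)

theorem lam_inf {N₁ N₂ : AddSubgroup G} (h₁ : Lam N₁) (h₂ : Lam N₂) :
    ∃ M : AddSubgroup G, Lam M ∧ M ≤ N₁ ∧ M ≤ N₂ := by
  obtain ⟨M, hM, h, _⟩ := exists_lam_le (fun j => if j = 0 then N₁ else N₂)
    (fun j => by by_cases hj : j = 0 <;> simp [hj, h₁, h₂]) (fun _ => univ) (fun _ => univ_mem)
  exact ⟨M, hM, by simpa using h 0, by simpa using h 1⟩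

/-- avoid a countable set of nonzero elements inside a given member -/
theorem exists_lam_avoid [T2Space G] {N : AddSubgroup G} (hN : Lam N) {C : Set G}
    (hC : C.Countable) (h0 : (0 : G) ∉ C) :
    ∃ M : AddSubgroup G, Lam M ∧ M ≤ N ∧ ∀ x ∈ M, x ∉ C := by
  by_cases hCe : C = ∅
  · exact ⟨N, hN, le_rfl, by simp [hCe]⟩
  obtain ⟨c, hc⟩ := hC.exists_eq_range (nonempty_iff_ne_empty.2 hCe)
  obtain ⟨M, hM, h, h'⟩ := exists_lam_le (fun _ => N) (fun _ => hN) (fun n => {c n}ᶜ) (by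
    intro n
    refine isOpen_compl_singleton.mem_nhds ?_
    intro h
    apply h0
    rw [hc]
    exact ⟨n, h.symm⟩)
  refine ⟨M, hM, h 0, ?_⟩
  intro x hx hxC
  rw [hc] at hxC
  obtain ⟨n, rfl⟩ := hxC
  exact h' _ hx n rfl

theorem exists_lam_notMem [T2Space G] {y : G} (hy : y ≠ 0) :
    ∃ M : AddSubgroup G, Lam M ∧ y ∉ M := by
  obtain ⟨M, hM, _, h⟩ := exists_lam_avoid (lam_top (G := G)) (countable_singleton y)
    (fun h => hy (by simpa using h.symm))
  exact ⟨M, hM, fun hyM => h y hyM rfl⟩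

theorem eq_zero_of_forall_lam [T2Space G] {y : G} (h : ∀ M : AddSubgroup G, Lam M → y ∈ M) :
    y = 0 := by
  by_contra hy
  obtain ⟨M, hM, hyM⟩ := exists_lam_notMem hy
  exact hyM (h M hM)

/-- closedness of chains up to one step -/
theorem IsChn.limit_mem {W : ℕ → Set G} (hW : IsChn W) {n : ℕ} {y : ℕ → G} {a l : G}
    (hy : Tendsto y atTop (𝓝 l)) (h : ∃ᶠ i in atTop, y i - a ∈ W (n + 1)) : l - a ∈ W n := by
  have h1 : ∀ᶠ i in atTop, l - y i ∈ W (n + 1) := by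
    have : Tendsto (fun i => l - y i) atTop (𝓝 0) := by
      simpa using (tendsto_const_nhds (x := l)).sub hy
    exact this.eventually (hW.mem_nhds _)
  obtain ⟨i, hi1, hi2⟩ := (h.and_eventually h1).exists
  have := hW.add_mem n _ _ hi2 hi1
  simpa using this

/-- Convergent selection in an SSP group, in additive form. -/
theorem IsSSP.select (hG : IsSSP G) (U : ℕ → Set G) (hU : ∀ n, IsOpen (U n))
    (hne : ∀ n, (U n).Nonempty) :
    ∃ (x : G) (z : ℕ → G) (k : ℕ → ℕ), StrictMono k ∧ Tendsto z atTop (𝓝 0) ∧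
      ∀ i, x + z i ∈ U (k i) := by
  obtain ⟨x, hx, k, y, hk, hy⟩ := hG U hU hne
  refine ⟨y, fun i => x (k i) - y, k, hk, ?_, ?_⟩
  · simpa using hy.sub_const y
  · intro i
    simpa using hx (k i)

/-- Total boundedness. -/
theorem IsSSP.totBdd (hG : IsSSP G) (O : Set G) (hO : O ∈ 𝓝 (0 : G)) :
    ∃ F : Finset G, ∀ g : G, ∃ f ∈ F, g - f ∈ O := by
  classical
  by_contra hcon
  push Not at hcon
  obtain ⟨x, -, hx⟩ := exists_seq_of_forall_finset_exists (fun _ : G => True)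
    (fun a b => b - a ∉ O) (fun s _ => by
      obtain ⟨g, hg⟩ := hcon s
      exact ⟨g, trivial, hg⟩)
  obtain ⟨W, hW, hWO⟩ := exists_chain (fun _ => O) (fun _ => hO)
  obtain ⟨l, z, k, hk, hz, hU⟩ := hG.select (fun n => {g | g - x n ∈ W 3})
    (fun n => (hW.isOpen 3).preimage (continuous_id.sub continuous_const))
    (fun n => ⟨x n, by simpa using hW.zero_mem 3⟩)
  have hev := hz.eventually (hW.mem_nhds 3)
  obtain ⟨i, hi⟩ := hev.exists_forall_of_atTop
  have h1 := hi i le_rfl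
  have h2 := hi (i + 1) (by omega)
  have h3 := hU i
  have h4 := hU (i + 1)
  apply hx (k i) (k (i + 1)) (hk (by omega))
  apply hWO 0
  have e : x (k (i + 1)) - x (k i)
      = ((l + z i - x (k i)) - z i) - ((l + z (i + 1) - x (k (i + 1))) - z (i + 1)) := by abel
  rw [e]
  have h5 := hW.sub_mem (n := 2) h3 h1
  have h6 := hW.sub_mem (n := 2) h4 h2
  exact hW.anti (by omega) (hW.sub_mem (n := 1) h5 h6)

/-- `G/N` has size at most the continuum. -/
theorem IsSSP.code (hG : IsSSP G) {N : AddSubgroup G} (hN : Lam N) :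
    ∃ c : G → (ℕ → ℕ), ∀ x y, c x = c y → x - y ∈ N := by
  classical
  obtain ⟨W, hW, hWN⟩ := hN
  choose F hF using fun n => hG.totBdd (W n) (hW.mem_nhds n)
  choose f hfF hf using hF
  have hinj : ∀ n, ∃ e : G → ℕ, ∀ a ∈ F n, ∀ b ∈ F n, e a = e b → a = b := by
    intro n
    obtain ⟨e, he⟩ := Set.countable_iff_exists_injOn.1 (F n).countable_toSet
    exact ⟨e, fun a ha b hb hab => he ha hb hab⟩
  choose e he using hinj
  refine ⟨fun g n => e n (f n g), ?_⟩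
  intro x y hxy
  rw [hWN]
  intro n
  have h1 : f (n + 1) x = f (n + 1) y := he (n + 1) _ (hfF _ _) _ (hfF _ _) (congrFun hxy (n + 1))
  have h2 := hf (n + 1) x
  have h3 := hf (n + 1) y
  rw [h1] at h2
  have := hW.sub_mem h2 h3
  simpa using this

end Pool.Agent.SSP
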