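import Pool.Agent.SSP.Main

/-!
Case I of the SSP theorem: no member of `Lam` is a torsion group.
-/

namespace Pool.Agent.SSP

open Filter Topology Set TensorProduct

variable {G : Type*} [AddCommGroup G] [TopologicalSpace G] [IsTopologicalAddGroup G]

/-- Final step: a good kernel of a homomorphism that is onto on all members of `Lam`. -/
theorem finish {C : Type*} [AddCommGroup C] [Nontrivial C] (φ : G →+ C) (hgood : Good φ.ker)
    (hφ : ∀ N : AddSubgroup G, Lam N → ∀ c : C, ∃ n ∈ N, φ n = c) :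
    ∃ H : AddSubgroup G, H ≠ ⊤ ∧ Dense (H : Set G) ∧ IsSSP H := by
  have hd := ssp_of_good hgood (by
    intro N hN g
    obtain ⟨n, hn, hng⟩ := hφ N hN (φ g)
    refine ⟨g - n, ?_, by simpa using hn⟩
    rw [AddMonoidHom.mem_ker, map_sub, hng, sub_self])
  refine ⟨φ.ker, ?_, hd.1, hd.2⟩
  intro htop
  obtain ⟨c, hc⟩ := exists_ne (0 : C)
  obtain ⟨n, _, hn⟩ := hφ ⊤ lam_top c
  have : n ∈ φ.ker := by rw [htop]; trivial
  rw [AddMonoidHom.mem_ker, hn] at this
  exact hc this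

theorem countable_of_fg {K E : Type*} [Field K] [Countable K] [AddCommGroup E] [Module K E]
    (F : Submodule K E) (hF : F.FG) : Countable F := by
  have : Module.Finite K F := Module.Finite.iff_fg.2 hF
  obtain ⟨n, f, hf⟩ := Module.Finite.exists_fin' K F
  exact hf.countable

/-- The levels in case I. -/
theorem IsSSP.exists_levels [T2Space G] (hG : IsSSP G)
    (hnt : ∀ N : AddSubgroup G, Lam N → ∃ x ∈ N, ∀ k : ℤ, k ≠ 0 → k • x ≠ 0) :
    ∃ A : ℕ → AddSubgroup G, Monotone A ∧ (∀ m (k : ℤ) x, k ≠ 0 → k • x ∈ A m → x ∈ A m) ∧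
      (∀ x, ∃ m, x ∈ A m) ∧ ∀ N : AddSubgroup G, Lam N → ∀ m, ∃ x ∈ N, x ∉ A m := by
  classical
  let f : G →ₗ[ℤ] ℚ ⊗[ℤ] G := TensorProduct.mk ℤ ℚ G 1
  have loc : IsLocalizedModule (nonZeroDivisors ℤ) f :=
    (isLocalizedModule_iff_isBaseChange (nonZeroDivisors ℤ) ℚ f).2 (TensorProduct.isBaseChange ℤ G ℚ)
  let ι : G →+ ℚ ⊗[ℤ] G := f.toAddMonoidHom
  have hker : ∀ g, ι g = 0 → ∃ k : ℤ, k ≠ 0 ∧ k • g = 0 := by
    intro g hg
    obtain ⟨c, hc⟩ := (IsLocalizedModule.eq_zero_iff (nonZeroDivisors ℤ) f).1 hg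
    exact ⟨c.1, nonZeroDivisors.ne_zero c.2, hc⟩
  have hsurj : ∀ e : ℚ ⊗[ℤ] G, ∃ k : ℚ, k ≠ 0 ∧ ∃ x : G, ι x = k • e := by
    intro e
    obtain ⟨⟨x, c⟩, hx⟩ := IsLocalizedModule.surj (nonZeroDivisors ℤ) f e
    refine ⟨(c.1 : ℚ), by exact_mod_cast nonZeroDivisors.ne_zero c.2, x, ?_⟩
    have hx' : (c.1 : ℤ) • e = f x := hx
    rw [Int.cast_smul_eq_zsmul, hx']
    rfl
  obtain ⟨F, hFm, hFc, hFN⟩ := exists_flag (K := ℚ) (E := ℚ ⊗[ℤ] G) (M := G) (G := G)
    (AddMonoidHom.id G) ι Lam ⟨⊤, lam_top⟩ (fun N₁ N₂ h1 h2 => lam_inf h1 h2)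
    (fun N hN => hG.code hN) hsurj (by
      intro N hN F hF
      by_contra hcon
      push Not at hcon
      have := countable_of_fg F hF
      let g : F → G := fun e => if h : ∃ x ∈ N, ι x = e then h.choose else 0
      have hg : ∀ x ∈ N, ∀ (hx : ι x ∈ F), ι (g ⟨ι x, hx⟩) = ι x := by
        intro x hx hxF
        have h : ∃ y ∈ N, ι y = ((⟨ι x, hxF⟩ : F) : ℚ ⊗[ℤ] G) := ⟨x, hx, rfl⟩
        have e : g ⟨ι x, hxF⟩ = h.choose := dif_pos h
        rw [e]
        exact h.choose_spec.2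
      obtain ⟨M, hM, hMN, hMC⟩ := exists_lam_avoid hN
        (C := range (fun p : ℤ × F => p.1 • g p.2) \ {0})
        ((countable_range _).mono sdiff_subset) (by simp)
      obtain ⟨x, hx, hxk⟩ := hnt M hM
      have hxF := hcon x (hMN hx)
      have h1 : ι (x - g ⟨ι x, hxF⟩) = 0 := by
        rw [map_sub, hg x (hMN hx), sub_self]
      obtain ⟨k, hk, hk'⟩ := hker _ h1
      rw [smul_sub, sub_eq_zero] at hk'
      apply hMC (k • x) (M.zsmul_mem hx k)
      refine ⟨⟨(k, ⟨ι x, hxF⟩), hk'.symm⟩, ?_⟩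
      simpa using hxk k hk)
  refine ⟨fun m => (F m).toAddSubgroup.comap ι, ?_, ?_, ?_, ?_⟩
  · intro m m' hmm x hx
    exact hFm hmm hx
  · intro m k x hk hx
    have h1 : ι (k • x) ∈ F m := hx
    rw [map_zsmul, ← Int.cast_smul_eq_zsmul ℚ] at h1
    have h2 : (k : ℚ) ≠ 0 := by exact_mod_cast hk
    exact ((F m).smul_mem_iff h2).1 h1
  · intro x
    exact hFc (ι x)
  · intro N hN m
    exact hFN N hN m

theorem IsSSP.caseI [T2Space G] (hG : IsSSP G)
    (hnt : ∀ N : AddSubgroup G, Lam N → ∃ x ∈ N, ∀ k : ℤ, k ≠ 0 → k • x ≠ 0) :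
    ∃ H : AddSubgroup G, H ≠ ⊤ ∧ Dense (H : Set G) ∧ IsSSP H := by
  classical
  obtain ⟨A, hA, hpure, hcov, hAN⟩ := hG.exists_levels hnt
  obtain ⟨m₀, Ns, hNs, -, hBaire⟩ := hG.lambdaBaire (lam_top (G := G)) A (fun x _ => hcov x)
  have : Fact (0 < (1 : ℚ)) := ⟨one_pos⟩
  have : Countable (AddCircle (1 : ℚ)) := (QuotientAddGroup.mk_surjective (s :=
    AddSubgroup.zmultiples (1 : ℚ))).countable
  have : Nontrivial (AddCircle (1 : ℚ)) := by
    refine ⟨((1 / 2 : ℚ) : AddCircle (1 : ℚ)), 0, ?_⟩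
    intro h
    rw [AddCircle.coe_eq_zero_iff] at h
    obtain ⟨n, hn⟩ := h
    have h1 : (n : ℚ) = 1 / 2 := by simpa using hn
    have h2 : (2 * n : ℚ) = 1 := by rw [h1]; norm_num
    have h3 : (2 * n : ℤ) = 1 := by exact_mod_cast h2
    omega
  obtain ⟨a, ha⟩ := exists_enum (AddCircle (1 : ℚ))
  choose lev hlev using hcov
  choose! pick hpick1 hpick2 using hAN
  -- characters
  have hchar : ∀ m, m₀ ≤ m → ∃ χ : G →+ AddCircle (1 : ℚ), (∀ b ∈ A m, χ b = 0) ∧
      ∀ N : AddSubgroup G, Lam N → ∀ c, ∃ n ∈ N, χ n = c := by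
    intro m hm
    let μ : ℕ → ℕ := fun n => Nat.rec m (fun _ v => max v (lev (pick Ns v))) n
    have hμs : ∀ n, μ (n + 1) = max (μ n) (lev (pick Ns (μ n))) := fun n => rfl
    have hμm : Monotone μ := monotone_nat_of_le_succ fun n => by rw [hμs]; exact le_max_left _ _
    let x : ℕ → G := fun n => pick Ns (μ n)
    obtain ⟨χ, hχ1, hχ2⟩ := exists_hom (C := AddCircle (1 : ℚ)) (A m) x (by
      intro l hl
      refine independent_of_levels A hA hpure x μ hμm ?_ ?_ l hl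
      · intro i
        rw [hμs]
        exact hA (le_max_right _ _) (hlev _)
      · intro i
        exact hpick2 Ns hNs (μ i)) a
    refine ⟨χ, hχ1, ?_⟩
    intro N hN c
    obtain ⟨i, hi⟩ := (ha c).exists
    obtain ⟨b, hb, hxb⟩ := hBaire N hN (x i) (hpick1 Ns hNs (μ i))
    refine ⟨x i - b, hxb, ?_⟩
    rw [map_sub, hχ2, hi, hχ1 b (hA hm hb), sub_zero]
  by_cases hgood : ∃ m, m₀ ≤ m ∧ Good (A m)
  · obtain ⟨m, hm, hg⟩ := hgood
    obtain ⟨χ, hχ1, hχ2⟩ := hchar m hm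
    exact finish χ (hg.mono (fun b hb => hχ1 b hb)) hχ2
  · push Not at hgood
    obtain ⟨U, hU, hUne, hUh⟩ := hG.exists_unhandled (fun j => A (m₀ + j))
      (fun j => hgood _ (by omega))
    obtain ⟨x, z, k, hk, hz, hxz⟩ := hG.select U hU hUne
    have hout : ∀ m, ∀ᶠ i in atTop, z i ∉ A m := by
      intro m
      by_contra hcon
      rw [not_eventually] at hcon
      simp only [not_not] at hcon
      obtain ⟨φ, hφ, hφA⟩ := extraction_of_frequently_atTop hcon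
      apply hUh m
      exact ⟨x, fun i => z (φ i), fun i => k (φ i), fun i => hA (by omega) (hφA i),
        hz.comp hφ.tendsto_atTop, (hk.comp hφ).tendsto_atTop, fun i => hxz _⟩
    have hpk : ∀ (m I : ℕ), ∃ i, I ≤ i ∧ z i ∉ A m := by
      intro m I
      obtain ⟨i, h1, h2⟩ := ((hout m).and (eventually_ge_atTop I)).exists
      exact ⟨i, h2, h1⟩
    choose pk hpk1 hpk2 using hpk
    let s : ℕ → ℕ × ℕ := fun n => Nat.rec (0, m₀)
      (fun _ v => (pk v.2 v.1 + 1, max v.2 (lev (z (pk v.2 v.1))))) n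
    have hs1 : ∀ n, (s (n + 1)).1 = pk (s n).2 (s n).1 + 1 := fun n => rfl
    have hs2 : ∀ n, (s (n + 1)).2 = max (s n).2 (lev (z (pk (s n).2 (s n).1))) := fun n => rfl
    let idx : ℕ → ℕ := fun n => pk (s n).2 (s n).1
    have hidx : StrictMono idx := by
      refine strictMono_nat_of_lt_succ fun n => ?_
      have h1 := hpk1 (s (n + 1)).2 (s (n + 1)).1
      rw [hs1] at h1
      exact h1
    let ζ : ℕ → G := fun n => z (idx n)
    have hζ : Tendsto ζ atTop (𝓝 0) := hz.comp hidx.tendsto_atTop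
    have hμm : Monotone (fun n => (s n).2) := monotone_nat_of_le_succ fun n => by
      rw [hs2]; exact le_max_left _ _
    have hind : ∀ l : ℕ →₀ ℤ, Finsupp.linearCombination ℤ ζ l = 0 → l = 0 := by
      intro l hl
      refine independent_of_levels A hA hpure ζ (fun n => (s n).2) hμm ?_ ?_ l ?_
      · intro i
        show z (pk (s i).2 (s i).1) ∈ A (s (i + 1)).2
        rw [hs2]
        exact hA (le_max_right _ _) (hlev _)
      · intro i
        exact hpk2 _ _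
      · rw [hl]; exact AddSubgroup.zero_mem _
    obtain ⟨N₀, hN₀, -, hN₀C⟩ := exists_lam_avoid (lam_top (G := G))
      (C := range (fun l : ℕ →₀ ℤ => Finsupp.linearCombination ℤ ζ l) \ {0})
      ((countable_range _).mono sdiff_subset) (by simp)
    obtain ⟨χ, -, hχ2⟩ := hchar m₀ le_rfl
    obtain ⟨ψ, hψ1, hψ2⟩ := exists_hom (C := AddCircle (1 : ℚ)) N₀ ζ (by
      intro l hl
      apply hind
      by_contra hne
      exact hN₀C _ hl ⟨⟨l, rfl⟩, hne⟩) (fun j => a j - χ (ζ j))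
    refine finish (χ + ψ) (hG.good_ker_of_reservoir (χ + ψ) ζ hζ ?_) ?_
    · intro c
      refine (ha c).mono ?_
      intro j hj
      rw [AddMonoidHom.add_apply, hψ2, hj]
      abel
    · intro N hN c
      obtain ⟨M, hM, h1, h2⟩ := lam_inf hN hN₀
      obtain ⟨n, hn, hnc⟩ := hχ2 M hM c
      refine ⟨n, h1 hn, ?_⟩
      rw [AddMonoidHom.add_apply, hnc, hψ1 n (h2 hn), add_zero]

end Pool.Agent.SSP
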