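import Pool.Agent.SSP.CaseI

/-!
Case II of the SSP theorem: some member of `Lam` is a torsion group; the main theorem.
-/

namespace Pool.Agent.SSP

open Filter Topology Set

variable {G : Type*} [AddCommGroup G] [TopologicalSpace G] [IsTopologicalAddGroup G]

theorem exists_dual_ne {K V : Type*} [Field K] [AddCommGroup V] [Module K V] {x : V} (hx : x ≠ 0) :
    ∃ f : V →ₗ[K] K, f x ≠ 0 := by
  by_contra hcon
  push Not at hcon
  exact hx ((Module.forall_dual_apply_eq_zero_iff K x).1 hcon)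

omit [TopologicalSpace G] [IsTopologicalAddGroup G] in
theorem exists_functional (p : ℕ) [Fact p.Prime] (h : ∀ q : G, p • q = 0) {x : G} (hx : x ≠ 0) :
    ∃ f : G →+ ZMod p, f x ≠ 0 := by
  let _ : Module (ZMod p) G := AddCommGroup.zmodModule h
  obtain ⟨f, hf⟩ := exists_dual_ne (K := ZMod p) hx
  exact ⟨f.toAddMonoidHom, hf⟩

/-- A torsion member of `Lam` contains a member of finite exponent. -/
theorem IsSSP.exists_bounded [T2Space G] (hG : IsSSP G) {N : AddSubgroup G} (hN : Lam N)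
    (htor : ∀ x ∈ N, ∃ k : ℤ, k ≠ 0 ∧ k • x = 0) :
    ∃ d : ℕ, 0 < d ∧ ∃ M : AddSubgroup G, Lam M ∧ ∀ x ∈ M, d • x = 0 := by
  obtain ⟨m, M, hM, -, h⟩ := hG.lambdaBaire hN
    (fun m => (nsmulAddMonoidHom (Nat.factorial m) : G →+ G).ker) (by
      intro x hx
      obtain ⟨k, hk, hkx⟩ := htor x hx
      refine ⟨k.natAbs, ?_⟩
      rw [AddMonoidHom.mem_ker, nsmulAddMonoidHom_apply]
      have h1 : k.natAbs • x = 0 := by
        rcases Int.natAbs_eq k with h | h
        · rw [h] at hkx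
          rw [← natCast_zsmul]
          exact hkx
        · rw [h, neg_smul, neg_eq_zero] at hkx
          rw [← natCast_zsmul]
          exact hkx
      obtain ⟨c, hc⟩ := Nat.dvd_factorial (Int.natAbs_pos.2 hk) le_rfl
      rw [hc, mul_comm, mul_smul, h1, smul_zero])
  refine ⟨Nat.factorial m, Nat.factorial_pos m, M, hM, ?_⟩
  intro x hx
  apply eq_zero_of_forall_lam
  intro N' hN'
  obtain ⟨b, hb, hxb⟩ := h N' hN' x hx
  rw [AddMonoidHom.mem_ker, nsmulAddMonoidHom_apply] at hb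
  have := N'.nsmul_mem hxb (Nat.factorial m)
  rwa [smul_sub, hb, sub_zero] at this

theorem IsSSP.caseII [T2Space G] (hG : IsSSP G) (hm : ¬ TopologicalSpace.MetrizableSpace G)
    {N : AddSubgroup G} (hN : Lam N) (htor : ∀ x ∈ N, ∃ k : ℤ, k ≠ 0 ∧ k • x = 0) :
    ∃ H : AddSubgroup G, H ≠ ⊤ ∧ Dense (H : Set G) ∧ IsSSP H := by
  classical
  have hex := hG.exists_bounded hN htor
  set d := Nat.find hex with hd
  obtain ⟨hd0, N₁, hN₁, hdN₁⟩ := Nat.find_spec hex
  rw [← hd] at hd0 hdN₁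
  have hd1 : d ≠ 1 := by
    intro h1
    obtain ⟨x, hx, hx0⟩ := hG.lam_ne_bot hm hN₁
    apply hx0
    have := hdN₁ x hx
    rwa [h1, one_smul] at this
  set p := d.minFac with hp
  have hpp : p.Prime := Nat.minFac_prime hd1
  have hpd : p ∣ d := Nat.minFac_dvd d
  set e := d / p with he
  have hped : p * e = d := Nat.mul_div_cancel' hpd
  have he0 : 0 < e := by
    rcases Nat.eq_zero_or_pos e with h | h
    · rw [h, mul_zero] at hped
      omega
    · exact h
  have hed : e < d := by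
    rw [← hped]
    have := hpp.two_le
    nlinarith
  have hmin : ∀ M : AddSubgroup G, Lam M → ∃ x ∈ M, e • x ≠ 0 := by
    intro M hM
    have := Nat.find_min hex (m := e) (by rw [← hd]; exact hed)
    by_contra hcon
    push Not at hcon
    exact this ⟨he0, M, hM, hcon⟩
  obtain ⟨N₂, hN₂, hN₂₁, hN₂d⟩ := hG.exists_lam_mul d hN₁ hdN₁
  have hdN₂ : ∀ x ∈ N₂, d • x = 0 := fun x hx => hdN₁ x (hN₂₁ hx)
  -- the vector space `X = e N₂`
  let X : AddSubgroup G := N₂.map (nsmulAddMonoidHom e)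
  have hXN : ∀ x ∈ X, x ∈ N₂ := by
    rintro x ⟨n, hn, rfl⟩
    exact N₂.nsmul_mem hn e
  have hX0 : ∀ x : X, p • x = 0 := by
    rintro ⟨x, n, hn, rfl⟩
    apply Subtype.ext
    show p • (e • n) = 0
    rw [smul_smul, hped]
    exact hdN₂ n hn
  have : Fact p.Prime := ⟨hpp⟩
  let _ : Module (ZMod p) X := AddCommGroup.zmodModule hX0
  let ρ : N₂ →+ X :=
    { toFun := fun n => ⟨e • (n : G), ⟨n, n.2, rfl⟩⟩
      map_zero' := Subtype.ext (by simp)
      map_add' := fun a b => Subtype.ext (by simp) }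
  have hρ : ∀ n : N₂, ((ρ n : X) : G) = e • (n : G) := fun n => rfl
  obtain ⟨F, hFm, hFc, hFN⟩ := exists_flag (K := ZMod p) (E := X) (M := N₂) (G := G)
    N₂.subtype ρ Lam ⟨⊤, lam_top⟩ (fun M₁ M₂ h1 h2 => lam_inf h1 h2)
    (fun M hM => hG.code hM) (by
      rintro ⟨x, n, hn, rfl⟩
      refine ⟨1, one_ne_zero, ⟨n, hn⟩, ?_⟩
      rw [one_smul]
      rfl) (by
      intro M hM F hF
      by_contra hcon
      push Not at hcon
      have := countable_of_fg F hF
      obtain ⟨M', hM', hM'M, hM'N⟩ := lam_inf hM hN₂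
      obtain ⟨M'', hM'', hM''M', hM''C⟩ := exists_lam_avoid hM'
        (C := range (fun y : F => ((y : X) : G)) \ {0})
        ((countable_range _).mono sdiff_subset) (by simp)
      obtain ⟨x, hx, hxe⟩ := hmin M'' hM''
      have hxN : x ∈ N₂ := hM'N (hM''M' hx)
      have h1 := hcon ⟨x, hxN⟩ (hM'M (hM''M' hx))
      apply hM''C (e • x) (M''.nsmul_mem hx e)
      refine ⟨⟨⟨ρ ⟨x, hxN⟩, h1⟩, rfl⟩, ?_⟩
      simpa using hxe)
  obtain ⟨m, N₃, hN₃, hN₃₂, hB⟩ := hG.lambdaBaire hN₂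
    (fun m => ((F m).toAddSubgroup.comap ρ).map N₂.subtype) (by
      intro x hx
      obtain ⟨m, hm⟩ := hFc (ρ ⟨x, hx⟩)
      exact ⟨m, ⟨x, hx⟩, hm, rfl⟩)
  obtain ⟨x₀, hx₀N, hx₀F⟩ := hFN N₃ hN₃ m
  -- the quotient
  let T : AddSubgroup G := (F m).toAddSubgroup.map X.subtype ⊔ (nsmulAddMonoidHom d : G →+ G).range
  let D : AddSubgroup G := T.comap (nsmulAddMonoidHom e)
  have hD : ∀ g, g ∈ D ↔ e • g ∈ T := fun g => Iff.rfl
  have hx₀D : (x₀ : G) ∉ D := by
    intro h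
    rw [hD] at h
    obtain ⟨y, hy, w, hw, hyw⟩ := AddSubgroup.mem_sup.1 h
    obtain ⟨y', hy', rfl⟩ := hy
    obtain ⟨g, rfl⟩ := hw
    have h1 : d • g ∈ N₂ := by
      have e1 : d • g = e • (x₀ : G) - (y' : G) := by
        rw [← hyw]
        simp
      rw [e1]
      exact N₂.sub_mem (N₂.nsmul_mem x₀.2 e) (hXN _ y'.2)
    have h2 := hN₂d g h1
    have h3 : (nsmulAddMonoidHom d : G →+ G) g = d • g := rfl
    rw [h3, h2, add_zero] at hyw
    apply hx₀F
    have h4 : ρ x₀ = y' := Subtype.ext hyw.symm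
    rw [h4]
    exact hy'
  have hDp : ∀ q : G ⧸ D, p • q = 0 := by
    intro q
    obtain ⟨g, rfl⟩ := QuotientAddGroup.mk_surjective q
    have : p • g ∈ D := by
      rw [hD, smul_smul, mul_comm, hped]
      exact AddSubgroup.mem_sup_right ⟨g, rfl⟩
    rw [← QuotientAddGroup.mk_nsmul]
    exact (QuotientAddGroup.eq_zero_iff _).2 this
  have hne : ((x₀ : G) : G ⧸ D) ≠ 0 := by
    intro h
    exact hx₀D ((QuotientAddGroup.eq_zero_iff _).1 h)
  obtain ⟨f, hf⟩ := exists_functional p hDp hne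
  let θ : G →+ ZMod p := f.comp (QuotientAddGroup.mk' D)
  have hθD : ∀ g ∈ D, θ g = 0 := by
    intro g hg
    have : (QuotientAddGroup.mk' D) g = 0 := (QuotientAddGroup.eq_zero_iff _).2 hg
    show f ((QuotientAddGroup.mk' D) g) = 0
    rw [this, map_zero]
  refine finish θ (hG.good_ker_of_finite θ) ?_
  intro N' hN' c
  obtain ⟨b, hb, hxb⟩ := hB N' hN' x₀ hx₀N
  obtain ⟨b', hb', rfl⟩ := hb
  have hbD : (b' : G) ∈ D := by
    rw [hD]
    refine AddSubgroup.mem_sup_left ⟨ρ b', hb', rfl⟩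
  have h1 : θ ((x₀ : G) - (b' : G)) = θ x₀ := by
    rw [map_sub, hθD _ hbD, sub_zero]
  have h2 : θ x₀ ≠ 0 := hf
  refine ⟨((c / θ x₀).val) • ((x₀ : G) - (b' : G)), N'.nsmul_mem hxb _, ?_⟩
  rw [map_nsmul, h1, nsmul_eq_mul, ZMod.natCast_val, ZMod.cast_id', id, div_mul_cancel₀ _ h2]

/-- Every Hausdorff non-metrizable SSP abelian group has a proper dense SSP subgroup. -/
theorem main [T2Space G] (hG : IsSSP G) (hm : ¬ TopologicalSpace.MetrizableSpace G) :
    ∃ H : AddSubgroup G, H ≠ ⊤ ∧ Dense (H : Set G) ∧ IsSSP H := by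
  by_cases h : ∀ N : AddSubgroup G, Lam N → ∃ x ∈ N, ∀ k : ℤ, k ≠ 0 → k • x ≠ 0
  · exact hG.caseI h
  · push Not at h
    obtain ⟨N, hN, hx⟩ := h
    exact hG.caseII hm hN hx

end Pool.Agent.SSP
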