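import Pool.Agent.SSP.Basic

/-!
Subgroups that handle sequences of open sets; the difference trick and the Baire lemma.
-/

namespace Pool.Agent.SSP

open Filter Topology Set

variable {G : Type*} [AddCommGroup G] [TopologicalSpace G]

/-- `H` handles the sequence `U`: some null sequence of `H`, translated by a point of `G`,
selects infinitely many of the sets `U n`. -/
def Handles (H : AddSubgroup G) (U : ℕ → Set G) : Prop :=
  ∃ (x : G) (z : ℕ → G) (k : ℕ → ℕ), (∀ i, z i ∈ H) ∧ Tendsto z atTop (𝓝 0) ∧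
    Tendsto k atTop atTop ∧ ∀ i, x + z i ∈ U (k i)

/-- `H` handles every sequence of nonempty open sets. -/
def Good (H : AddSubgroup G) : Prop :=
  ∀ U : ℕ → Set G, (∀ n, IsOpen (U n)) → (∀ n, (U n).Nonempty) → Handles H U

theorem Good.mono {H H' : AddSubgroup G} (h : H ≤ H') (hH : Good H) : Good H' := by
  intro U hU hne
  obtain ⟨x, z, k, h1, h2, h3, h4⟩ := hH U hU hne
  exact ⟨x, z, k, fun i => h (h1 i), h2, h3, h4⟩

theorem Handles.strict {H : AddSubgroup G} {U : ℕ → Set G} (h : Handles H U) :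
    ∃ (x : G) (z : ℕ → G) (k : ℕ → ℕ), (∀ i, z i ∈ H) ∧ Tendsto z atTop (𝓝 0) ∧
      StrictMono k ∧ ∀ i, x + z i ∈ U (k i) := by
  obtain ⟨x, z, k, h1, h2, h3, h4⟩ := h
  obtain ⟨φ, hφ, hφk⟩ := strictMono_subseq_of_tendsto_atTop h3
  exact ⟨x, fun i => z (φ i), fun i => k (φ i), fun i => h1 _, h2.comp hφ.tendsto_atTop, hφk,
    fun i => h4 _⟩

/-- Handling a finer sequence suffices. -/
theorem Handles.of_le {H : AddSubgroup G} {U U' : ℕ → Set G} (h : Handles H U')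
    (hle : ∀ᶠ m in atTop, ∃ k, m ≤ k ∧ U' m ⊆ U k) : Handles H U := by
  classical
  obtain ⟨x, z, k, h1, h2, h3, h4⟩ := h.strict
  obtain ⟨M, hM⟩ := eventually_atTop.1 hle
  choose! κ hκ1 hκ2 using hM
  have hk : ∀ i, M ≤ k (i + M) := fun i => le_trans (by omega) (h3.le_apply (x := i + M))
  refine ⟨x, fun i => z (i + M), fun i => κ (k (i + M)), fun i => h1 _, ?_, ?_, ?_⟩
  · exact h2.comp (tendsto_add_atTop_nat M)
  · refine tendsto_atTop_mono (fun i => hκ1 _ (hk i)) ?_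
    exact h3.tendsto_atTop.comp (tendsto_add_atTop_nat M)
  · intro i
    exact hκ2 _ (hk i) (h4 _)

variable [IsTopologicalAddGroup G]

theorem exists_ball {O : Set G} (hO : IsOpen O) {u : G} (hu : u ∈ O) :
    {w : G | u + w ∈ O} ∈ 𝓝 (0 : G) := by
  have : IsOpen {w : G | u + w ∈ O} := hO.preimage (continuous_const.add continuous_id)
  exact this.mem_nhds (by simpa using hu)

theorem isOpen_translate {W : Set G} (hW : IsOpen W) (a : G) : IsOpen {g : G | g - a ∈ W} :=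
  hW.preimage (continuous_id.sub continuous_const)

/-- chains inside a sequence of open sets -/
theorem exists_balls (U : ℕ → Set G) (hU : ∀ n, IsOpen (U n)) (hne : ∀ n, (U n).Nonempty) :
    ∃ (u : ℕ → G) (W : ℕ → Set G), IsChn W ∧ ∀ n, ∀ w ∈ W n, u n + w ∈ U n := by
  choose u hu using hne
  obtain ⟨W, hW, h⟩ := exists_chain (fun n => {w : G | u n + w ∈ U n})
    (fun n => exists_ball (hU n) (hu n))
  exact ⟨u, W, hW, fun n w hw => h n hw⟩

/-- The whole group is good. -/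
theorem IsSSP.good_top (hG : IsSSP G) : Good (⊤ : AddSubgroup G) := by
  intro U hU hne
  obtain ⟨x, z, k, hk, hz, h⟩ := hG.select U hU hne
  exact ⟨x, z, k, fun _ => trivial, hz, hk.tendsto_atTop, h⟩

/-- A good subgroup which meets all cosets of all members of `Lam` is dense and SSP. -/
theorem ssp_of_good {H : AddSubgroup G} (hH : Good H)
    (hd : ∀ N : AddSubgroup G, Lam N → ∀ g : G, ∃ h ∈ H, g - h ∈ N) :
    Dense (H : Set G) ∧ IsSSP H := by
  constructor
  · rw [dense_iff_inter_open]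
    rintro O hO ⟨g, hg⟩
    obtain ⟨W, hW, hWO⟩ := exists_chain (fun _ => {w : G | g + w ∈ O}) (fun _ => exists_ball hO hg)
    obtain ⟨h, hh, hgh⟩ := hd _ hW.lam g
    refine ⟨h, ?_, hh⟩
    have h1 : -(g - h) ∈ W 0 := hW.neg_mem _ _ (hgh 0)
    have h2 := hWO 0 h1
    simpa using h2
  · intro U hU hne
    choose O hO hOU using fun n => isOpen_induced_iff.1 (hU n)
    have hneO : ∀ n, (O n).Nonempty := by
      intro n
      obtain ⟨x, hx⟩ := hne n
      rw [← hOU n] at hx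
      exact ⟨x, hx⟩
    obtain ⟨u, W, hW, hWO⟩ := exists_balls O hO hneO
    obtain ⟨x, z, k, h1, h2, h3, h4⟩ :=
      (hH (fun n => {g | g - u n ∈ W (n + 1)}) (fun n => isOpen_translate (hW.isOpen _) _)
        (fun n => ⟨u n, by simpa using hW.zero_mem _⟩)).strict
    obtain ⟨h, hh, hxh⟩ := hd _ hW.lam x
    have key : ∀ i, h + z i ∈ O (k i) := by
      intro i
      have e1 : x + z i - u (k i) ∈ W (k i + 1) := h4 i
      have e2 : x - h ∈ W (k i + 1) := hxh _
      have e3 := hW.sub_mem e1 e2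
      have e4 := hWO (k i) _ e3
      have e5 : u (k i) + (x + z i - u (k i) - (x - h)) = h + z i := by abel
      rwa [e5] at e4
    classical
    choose d hd' using hne
    let y : ℕ → H := fun n => if hn : ∃ i, k i = n then ⟨h + z hn.choose, H.add_mem hh (h1 _)⟩
      else d n
    refine ⟨y, ?_, k, ⟨h, hh⟩, h3, ?_⟩
    · intro n
      by_cases hn : ∃ i, k i = n
      · have e : y n = ⟨h + z hn.choose, H.add_mem hh (h1 _)⟩ := dif_pos hn
        rw [e, ← hOU n]
        have := key hn.choose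
        rw [hn.choose_spec] at this
        exact this
      · have e : y n = d n := dif_neg hn
        rw [e]
        exact hd' n
    · have hy : ∀ i, ((y (k i) : H) : G) = h + z i := by
        intro i
        have hn : ∃ j, k j = k i := ⟨i, rfl⟩
        have e : y (k i) = ⟨h + z hn.choose, H.add_mem hh (h1 _)⟩ := dif_pos hn
        have e2 : hn.choose = i := h3.injective hn.choose_spec
        rw [e]
        simp only [e2]
      rw [tendsto_subtype_rng]
      simp only [hy]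
      simpa using h2.const_add h

/-- Baire property of `Lam`. -/
theorem IsSSP.lambdaBaire (hG : IsSSP G) {N₀ : AddSubgroup G} (h₀ : Lam N₀)
    (B : ℕ → AddSubgroup G) (hcov : ∀ x ∈ N₀, ∃ m, x ∈ B m) :
    ∃ (m : ℕ) (N : AddSubgroup G), Lam N ∧ N ≤ N₀ ∧
      ∀ N' : AddSubgroup G, Lam N' → ∀ x ∈ N, ∃ b ∈ B m, x - b ∈ N' := by
  classical
  by_contra hcon
  push Not at hcon
  -- state
  let S := {p : G × AddSubgroup G // p.1 ∈ N₀ ∧ Lam p.2 ∧ p.2 ≤ N₀}
  have step : ∀ (m : ℕ) (p : S), ∃ q : S, q.1.2 ≤ p.1.2 ∧ q.1.1 - p.1.1 ∈ p.1.2 ∧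
      ∀ b ∈ B m, q.1.1 - b ∉ q.1.2 := by
    rintro m ⟨⟨x, N⟩, hx, hN, hN0⟩
    obtain ⟨N', hN', g, hg, hgb⟩ := hcon m N hN hN0
    obtain ⟨M, hM, hMN, hMN'⟩ := lam_inf hN hN'
    by_cases hc : ∀ b ∈ B m, x - b ∉ M
    · exact ⟨⟨⟨x, M⟩, hx, hM, hMN.trans hN0⟩, hMN, by simp [N.zero_mem], hc⟩
    · push Not at hc
      obtain ⟨b, hb, hxb⟩ := hc
      refine ⟨⟨⟨x + g, M⟩, N₀.add_mem hx (hN0 hg), hM, hMN.trans hN0⟩, hMN, by simpa using hg, ?_⟩
      intro b' hb' hc'
      apply hgb (b' - b) ((B m).sub_mem hb' hb)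
      have e : g - (b' - b) = (x + g - b') - (x - b) := by abel
      rw [e]
      exact hMN' (M.sub_mem hc' hxb)
  choose st hst1 hst2 hst3 using step
  let s : ℕ → S := fun n => Nat.rec ⟨⟨0, N₀⟩, N₀.zero_mem, h₀, le_rfl⟩ (fun n p => st n p) n
  have hs1 : ∀ n, (s (n + 1)).1.2 ≤ (s n).1.2 := fun n => hst1 n (s n)
  have hs2 : ∀ n, (s (n + 1)).1.1 - (s n).1.1 ∈ (s n).1.2 := fun n => hst2 n (s n)
  have hs3 : ∀ n, ∀ b ∈ B n, (s (n + 1)).1.1 - b ∉ (s (n + 1)).1.2 := fun n => hst3 n (s n)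
  have hanti : Antitone (fun n => (s n).1.2) := antitone_nat_of_succ_le hs1
  have hdiff : ∀ m n, m ≤ n → (s n).1.1 - (s m).1.1 ∈ (s m).1.2 := by
    intro m n hmn
    induction n, hmn using Nat.le_induction with
    | base => simp
    | succ n hmn ih =>
      have h1 : (s (n + 1)).1.1 - (s n).1.1 ∈ (s m).1.2 := hanti hmn (hs2 n)
      have := (s m).1.2.add_mem h1 ih
      simpa using this
  choose W hW hWN using fun n => (s n).2.2.1
  obtain ⟨V, hV, _, hVW⟩ := exists_refine W hW (fun _ => univ) (fun _ => univ_mem)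
  obtain ⟨l, z, k, hk, hz, hU⟩ := hG.select (fun n => {g | g - (s n).1.1 ∈ V n})
    (fun n => isOpen_translate (hV.isOpen _) _) (fun n => ⟨(s n).1.1, by simpa using hV.zero_mem _⟩)
  have hl : ∀ m, l - (s m).1.1 ∈ (s m).1.2 := by
    intro m
    rw [hWN]
    intro j
    refine (hW m).limit_mem (y := fun i => l + z i) (by simpa using hz.const_add l) ?_
    refine Eventually.frequently ?_
    filter_upwards [hk.tendsto_atTop.eventually_ge_atTop (max m (j + 2))] with i hi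
    have h1 : l + z i - (s (k i)).1.1 ∈ W m (j + 2) :=
      hVW m (j + 2) (k i) (le_trans (le_max_left _ _) hi) (le_trans (le_max_right _ _) hi) (hU i)
    have h2 : (s (k i)).1.1 - (s m).1.1 ∈ W m (j + 2) :=
      ((hWN m _).1 (hdiff m (k i) (le_trans (le_max_left _ _) hi))) _
    have := (hW m).add_mem _ _ _ h1 h2
    simpa using this
  have hlN : l ∈ N₀ := by
    have h1 := (s 0).2.2.2 (hl 0)
    have := N₀.add_mem h1 (s 0).2.1
    simpa using this
  obtain ⟨m, hm⟩ := hcov l hlN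
  apply hs3 m l hm
  have := (s (m + 1)).1.2.neg_mem (hl (m + 1))
  simpa using this

/-- The difference trick: a subgroup handling everything below some sequence is good. -/
theorem IsSSP.good_of_cone (hG : IsSSP G) {H : AddSubgroup G} (U : ℕ → Set G)
    (hU : ∀ n, IsOpen (U n)) (hne : ∀ n, (U n).Nonempty)
    (hall : ∀ U' : ℕ → Set G, (∀ n, IsOpen (U' n)) → (∀ n, (U' n).Nonempty) →
      (∀ m, ∃ k, m ≤ k ∧ U' m ⊆ U k) → Handles H U') : Good H := by
  intro Y hY hYne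
  obtain ⟨y, ζ, κ, hκ, hζ, hyζ⟩ := hG.select Y hY hYne
  obtain ⟨u, R, hR, hRU⟩ := exists_balls U hU hne
  -- choose a fast subsequence of `ζ`
  have hfast : ∀ m, ∃ i, m ≤ i ∧ ζ i ∈ R (m + 1) := by
    intro m
    obtain ⟨i, hi⟩ := (hζ.eventually (hR.mem_nhds (m + 1))).exists_forall_of_atTop
    exact ⟨max i m, le_max_right _ _, hi _ (le_max_left _ _)⟩
  choose ι hι1 hι2 using hfast
  obtain ⟨O, hO, hOY⟩ := exists_chain (fun m => {w : G | y + ζ (ι m) + w ∈ Y (κ (ι m))})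
    (fun m => exists_ball (hY _) (hyζ _))
  let U₁ : ℕ → Set G := fun m => {g | g - (u m + ζ (ι m)) ∈ O (m + 1) ∩ R (m + 1)}
  have hU₁o : ∀ m, IsOpen (U₁ m) := fun m =>
    isOpen_translate ((hO.isOpen _).inter (hR.isOpen _)) _
  have hU₁n : ∀ m, (U₁ m).Nonempty := fun m => ⟨u m + ζ (ι m), by
    show u m + ζ (ι m) - (u m + ζ (ι m)) ∈ O (m + 1) ∩ R (m + 1)
    rw [sub_self]
    exact ⟨hO.zero_mem _, hR.zero_mem _⟩⟩
  have hU₁U : ∀ m, ∃ k, m ≤ k ∧ U₁ m ⊆ U k := by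
    intro m
    refine ⟨m, le_rfl, ?_⟩
    intro g hg
    have h1 : g - (u m + ζ (ι m)) ∈ R (m + 1) := hg.2
    have h2 := hR.add_mem _ _ _ h1 (hι2 m)
    have h3 := hRU m _ h2
    have e : u m + (g - (u m + ζ (ι m)) + ζ (ι m)) = g := by abel
    rwa [e] at h3
  obtain ⟨x₁, z₁, a, hz₁H, hz₁, ha, hU₁⟩ := (hall U₁ hU₁o hU₁n hU₁U).strict
  let U₂ : ℕ → Set G := fun i => {g | g - u (a i) ∈ O (a i + 1) ∩ R (a i + 1)}
  have hU₂o : ∀ m, IsOpen (U₂ m) := fun m =>
    isOpen_translate ((hO.isOpen _).inter (hR.isOpen _)) _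
  have hU₂n : ∀ m, (U₂ m).Nonempty := fun m => ⟨u (a m), by
    show u (a m) - u (a m) ∈ O (a m + 1) ∩ R (a m + 1)
    rw [sub_self]
    exact ⟨hO.zero_mem _, hR.zero_mem _⟩⟩
  have hU₂U : ∀ m, ∃ k, m ≤ k ∧ U₂ m ⊆ U k := by
    intro m
    refine ⟨a m, ha.le_apply, ?_⟩
    intro g hg
    have h1 : g - u (a m) ∈ R (a m) := hR.succ_subset _ hg.2
    have h3 := hRU (a m) _ h1
    have e : u (a m) + (g - u (a m)) = g := by abel
    rwa [e] at h3
  obtain ⟨x₂, z₂, b, hz₂H, hz₂, hb, hU₂⟩ := (hall U₂ hU₂o hU₂n hU₂U).strict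
  refine ⟨y + x₁ - x₂, fun j => z₁ (b j) - z₂ j, fun j => κ (ι (a (b j))), ?_, ?_, ?_, ?_⟩
  · exact fun j => H.sub_mem (hz₁H _) (hz₂H _)
  · have := (hz₁.comp hb.tendsto_atTop).sub hz₂
    simpa using this
  · refine hκ.tendsto_atTop.comp ?_
    refine tendsto_atTop_mono (fun j => hι1 (a (b j))) ?_
    exact ha.tendsto_atTop.comp hb.tendsto_atTop
  · intro j
    have h1 : x₁ + z₁ (b j) - (u (a (b j)) + ζ (ι (a (b j)))) ∈ O (a (b j) + 1) := (hU₁ (b j)).1
    have h2 : x₂ + z₂ j - u (a (b j)) ∈ O (a (b j) + 1) := (hU₂ j).1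
    have h3 := hO.sub_mem h1 h2
    have h4 := hOY (a (b j)) h3
    have e : y + ζ (ι (a (b j))) + ((x₁ + z₁ (b j) - (u (a (b j)) + ζ (ι (a (b j)))))
        - (x₂ + z₂ j - u (a (b j)))) = y + x₁ - x₂ + (z₁ (b j) - z₂ j) := by abel
    have h5 : y + ζ (ι (a (b j))) + ((x₁ + z₁ (b j) - (u (a (b j)) + ζ (ι (a (b j)))))
        - (x₂ + z₂ j - u (a (b j)))) ∈ Y (κ (ι (a (b j)))) := h4
    rw [e] at h5
    exact h5

/-- Baire lemma for sequences of open sets. -/
theorem IsSSP.exists_unhandled (hG : IsSSP G) (H : ℕ → AddSubgroup G)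
    (hbad : ∀ j, ¬ Good (H j)) :
    ∃ U : ℕ → Set G, (∀ n, IsOpen (U n)) ∧ (∀ n, (U n).Nonempty) ∧ ∀ j, ¬ Handles (H j) U := by
  classical
  let S := {U : ℕ → Set G // (∀ n, IsOpen (U n)) ∧ (∀ n, (U n).Nonempty)}
  have step : ∀ (j : ℕ) (U : S), ∃ U' : S, (∀ m, ∃ k, m ≤ k ∧ U'.1 m ⊆ U.1 k) ∧
      ¬ Handles (H j) U'.1 := by
    rintro j ⟨U, hU, hne⟩
    by_contra hcon
    push Not at hcon
    exact hbad j (hG.good_of_cone U hU hne (fun U' h1 h2 h3 => hcon ⟨U', h1, h2⟩ h3))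
  choose st hst1 hst2 using step
  let s : ℕ → S := fun n => Nat.rec ⟨fun _ => univ, fun _ => isOpen_univ, fun _ => ⟨0, trivial⟩⟩
    (fun n p => st n p) n
  have hs1 : ∀ n m, ∃ k, m ≤ k ∧ (s (n + 1)).1 m ⊆ (s n).1 k := fun n => hst1 n (s n)
  have hs2 : ∀ n, ¬ Handles (H n) (s (n + 1)).1 := fun n => hst2 n (s n)
  have hs : ∀ i n, i ≤ n → ∀ m, ∃ k, m ≤ k ∧ (s n).1 m ⊆ (s i).1 k := by
    intro i n hin
    induction n, hin using Nat.le_induction with
    | base => exact fun m => ⟨m, le_rfl, le_rfl⟩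
    | succ n hin ih =>
      intro m
      obtain ⟨k, hk, hk'⟩ := hs1 n m
      obtain ⟨k2, hk2, hk2'⟩ := ih k
      exact ⟨k2, hk.trans hk2, hk'.trans hk2'⟩
  refine ⟨fun n => (s n).1 n, fun n => (s n).2.1 n, fun n => (s n).2.2 n, ?_⟩
  intro j hj
  apply hs2 j
  refine hj.of_le ?_
  filter_upwards [eventually_ge_atTop (j + 1)] with m hm
  exact hs (j + 1) m hm m

/-- Finite index subgroups are good. -/
theorem IsSSP.good_ker_of_finite (hG : IsSSP G) {C : Type*} [AddCommGroup C] [Finite C]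
    (θ : G →+ C) : Good θ.ker := by
  intro U hU hne
  obtain ⟨u, W, hW, hWU⟩ := exists_balls U hU hne
  obtain ⟨x, z, k, hk, hz, h⟩ := hG.select (fun n => {g | g - u n ∈ W (n + 1)})
    (fun n => isOpen_translate (hW.isOpen _) _) (fun n => ⟨u n, by simpa using hW.zero_mem _⟩)
  -- some value is taken infinitely often
  obtain ⟨c, hc⟩ : ∃ c : C, ∃ᶠ i in atTop, θ (z i) = c := by
    by_contra hcon
    push Not at hcon
    have : ∀ᶠ i in atTop, ∀ c : C, θ (z i) ≠ c :=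
      eventually_all.2 (fun c => by simpa using hcon c)
    obtain ⟨i, hi⟩ := this.exists
    exact hi _ rfl
  obtain ⟨φ, hφ, hφc⟩ := extraction_of_frequently_atTop hc
  have hzφ : Tendsto (fun i => z (φ i)) atTop (𝓝 0) := hz.comp hφ.tendsto_atTop
  have hj : ∀ i, ∃ j, i ≤ j ∧ z (φ j) ∈ W (k (φ i) + 1) := by
    intro i
    obtain ⟨j, hj⟩ := (hzφ.eventually (hW.mem_nhds (k (φ i) + 1))).exists_forall_of_atTop
    exact ⟨max i j, le_max_left _ _, hj _ (le_max_right _ _)⟩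
  choose j hj1 hj2 using hj
  have hjt : Tendsto j atTop atTop := tendsto_atTop_mono hj1 tendsto_id
  refine ⟨x, fun i => z (φ i) - z (φ (j i)), fun i => k (φ i), ?_, ?_, ?_, ?_⟩
  · intro i
    rw [AddMonoidHom.mem_ker, map_sub, hφc, hφc, sub_self]
  · have := hzφ.sub (hzφ.comp hjt)
    simpa using this
  · exact (hk.comp hφ).tendsto_atTop
  · intro i
    have h1 := hW.sub_mem (h (φ i)) (hj2 i)
    have h2 := hWU _ _ h1
    have e : u (k (φ i)) + (x + z (φ i) - u (k (φ i)) - z (φ (j i)))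
        = x + (z (φ i) - z (φ (j i))) := by abel
    rwa [e] at h2

/-- A reservoir of values along a null sequence makes a kernel good. -/
theorem IsSSP.good_ker_of_reservoir (hG : IsSSP G) {C : Type*} [AddCommGroup C]
    (φ : G →+ C) (ζ : ℕ → G) (hζ : Tendsto ζ atTop (𝓝 0))
    (hval : ∀ c : C, ∃ᶠ j in atTop, φ (ζ j) = c) : Good φ.ker := by
  intro U hU hne
  obtain ⟨u, W, hW, hWU⟩ := exists_balls U hU hne
  obtain ⟨x, z, k, hk, hz, h⟩ := hG.select (fun n => {g | g - u n ∈ W (n + 1)})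
    (fun n => isOpen_translate (hW.isOpen _) _) (fun n => ⟨u n, by simpa using hW.zero_mem _⟩)
  have hj : ∀ i, ∃ j, i ≤ j ∧ φ (ζ j) = φ (z i) ∧ ζ j ∈ W (k i + 1) := by
    intro i
    have h1 := (hval (φ (z i))).and_eventually
      ((eventually_ge_atTop i).and (hζ.eventually (hW.mem_nhds (k i + 1))))
    obtain ⟨j, hj, hj1, hj2⟩ := h1.exists
    exact ⟨j, hj1, hj, hj2⟩
  choose j hj1 hj2 hj3 using hj
  have hjt : Tendsto j atTop atTop := tendsto_atTop_mono hj1 tendsto_id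
  refine ⟨x, fun i => z i - ζ (j i), k, ?_, ?_, hk.tendsto_atTop, ?_⟩
  · intro i
    rw [AddMonoidHom.mem_ker, map_sub, hj2, sub_self]
  · have := hz.sub (hζ.comp hjt)
    simpa using this
  · intro i
    have h1 := hW.sub_mem (h i) (hj3 i)
    have h2 := hWU _ _ h1
    have e : u (k i) + (x + z i - u (k i) - ζ (j i)) = x + (z i - ζ (j i)) := by abel
    rwa [e] at h2

end Pool.Agent.SSP
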