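import Mathlib

/-!
Set theory and linear algebra for the SSP theorem.
-/

namespace Pool.Agent.SSP

open Filter Set Cardinal

universe u

/-- If a filter has no finite member and the complements of its members have size at most the
continuum, then there is a function to `ℕ` which is not bounded on any member. -/
theorem exists_unbounded {Γ : Type u} (F : Filter Γ) (hfin : ∀ S ∈ F, S.Infinite)
    (hc : ∀ S ∈ F, ∃ e : Γ → (ℕ → ℕ), ∀ x ∉ S, ∀ y ∉ S, e x = e y → x = y) :
    ∃ h : Γ → ℕ, ∀ m, {γ | h γ ≤ m} ∉ F := by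
  classical
  by_cases hemb : ∃ e : Γ → (ℕ → ℕ), Function.Injective e
  · obtain ⟨e, he⟩ := hemb
    by_contra hcon
    push Not at hcon
    -- an ultrafilter above `F` and the cofinite filter
    have hne : NeBot (F ⊓ cofinite) := by
      rw [inf_neBot_iff]
      intro s hs t ht
      have h1 := hfin s hs
      have h2 : (tᶜ).Finite := ht
      by_contra hemp
      apply h1
      refine h2.subset ?_
      intro x hx hxt
      exact hemp ⟨x, hx, hxt⟩
    let 𝓊 : Ultrafilter Γ := Ultrafilter.of (F ⊓ cofinite)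
    have hu : (𝓊 : Filter Γ) ≤ F ⊓ cofinite := Ultrafilter.of_le _
    have huF : ∀ S ∈ F, S ∈ 𝓊 := fun S hS => hu (mem_inf_of_left hS)
    have huc : ∀ S : Set Γ, S.Finite → S ∉ 𝓊 := by
      intro S hS hS'
      have : Sᶜ ∈ 𝓊 := hu (mem_inf_of_right (by
        show (Sᶜᶜ).Finite
        rwa [compl_compl]))
      exact (Ultrafilter.compl_notMem_iff.2 hS') this
    have hconst : ∀ h : Γ → ℕ, ∃ v, {γ | h γ = v} ∈ 𝓊 := by
      intro h
      obtain ⟨m, hm⟩ := hcon h
      have hm' := huF _ hm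
      have e1 : {γ | h γ ≤ m} = ⋃ v ∈ Set.Iic m, {γ | h γ = v} := by
        ext γ
        simp
      rw [e1] at hm'
      obtain ⟨v, _, hv⟩ := (Ultrafilter.finite_biUnion_mem_iff (Set.finite_Iic m)).1 hm'
      exact ⟨v, hv⟩
    choose v hv using fun n => hconst (fun γ => e γ n)
    -- the common fibre is in the ultrafilter
    have hall : {γ | ∀ n, e γ n = v n} ∈ 𝓊 := by
      by_contra hnot
      have hnot' : {γ | ∀ n, e γ n = v n}ᶜ ∈ 𝓊 := Ultrafilter.compl_mem_iff_notMem.2 hnot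
      let h : Γ → ℕ := fun γ => if hγ : ∃ n, e γ n ≠ v n then Nat.find hγ else 0
      obtain ⟨m, hm⟩ := hcon h
      have h1 : (⋂ n ∈ Finset.range (m + 1), {γ | e γ n = v n}) ∈ (𝓊 : Filter Γ) := by
        rw [biInter_finset_mem]
        exact fun n _ => hv n
      have h2 := inter_mem (inter_mem hnot' (huF _ hm)) h1
      obtain ⟨γ, ⟨h3, h4⟩, h5⟩ := Ultrafilter.nonempty_of_mem h2
      have h6 : ∃ n, e γ n ≠ v n := by
        have : ¬ ∀ n, e γ n = v n := h3
        push Not at this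
        exact this
      have h7 : h γ = Nat.find h6 := dif_pos h6
      have h8 : Nat.find h6 ≤ m := by
        rw [← h7]; exact h4
      have h9 := mem_iInter₂.1 h5 (Nat.find h6) (Finset.mem_range.2 (by omega))
      exact Nat.find_spec h6 h9
    refine huc _ ?_ hall
    refine Set.Subsingleton.finite ?_
    intro x hx y hy
    apply he
    funext n
    rw [hx n, hy n]
  · -- large index set
    have hinf : Infinite Γ := by
      by_contra hfi
      rw [not_infinite_iff_finite] at hfi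
      apply hemb
      obtain ⟨f, hf⟩ := Countable.exists_injective_nat Γ
      exact ⟨fun γ _ => f γ, fun x y hxy => hf (congrFun hxy 0)⟩
    have hcard : #(Γ × ULift.{u} ℕ) = #Γ := by
      rw [mk_prod, Cardinal.lift_id, Cardinal.lift_id]
      have : #(ULift.{u} ℕ) = ℵ₀ := by simp
      rw [this]
      exact Cardinal.mul_aleph0_eq (Cardinal.aleph0_le_mk Γ)
    obtain ⟨ε⟩ := Cardinal.eq.1 hcard
    refine ⟨fun γ => (ε.symm γ).2.down, ?_⟩
    intro m hm
    obtain ⟨e, he⟩ := hc _ hm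
    apply hemb
    refine ⟨fun γ => e (ε (γ, ⟨m + 1⟩)), ?_⟩
    intro x y hxy
    have h1 := he (ε (x, ⟨m + 1⟩)) (by simp) (ε (y, ⟨m + 1⟩)) (by simp) hxy
    have h2 := ε.injective h1
    exact (Prod.mk.inj h2).1

/-- The main linear algebra lemma. -/
theorem exists_flag {K E M G : Type*} [Field K] [AddCommGroup E] [Module K E] [AddCommGroup M]
    [AddCommGroup G] (i : M →+ G) (ρ : M →+ E) (L : AddSubgroup G → Prop)
    (htop : ∃ N, L N) (hdir : ∀ N₁ N₂, L N₁ → L N₂ → ∃ N, L N ∧ N ≤ N₁ ∧ N ≤ N₂)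
    (hcode : ∀ N, L N → ∃ c : G → (ℕ → ℕ), ∀ x y, c x = c y → x - y ∈ N)
    (hsurj : ∀ e : E, ∃ k : K, k ≠ 0 ∧ ∃ x : M, ρ x = k • e)
    (hfg : ∀ N, L N → ∀ F : Submodule K E, F.FG → ∃ x : M, i x ∈ N ∧ ρ x ∉ F) :
    ∃ F : ℕ → Submodule K E, Monotone F ∧ (∀ e, ∃ m, e ∈ F m) ∧
      ∀ N, L N → ∀ m, ∃ x : M, i x ∈ N ∧ ρ x ∉ F m := by
  classical
  let b := Module.Basis.ofVectorSpace K E
  let Γ := Module.Basis.ofVectorSpaceIndex K E
  let 𝓕 : Filter Γ :=
    { sets := {S | ∃ N, L N ∧ ∀ x : M, i x ∈ N → ((b.repr (ρ x)).support : Set Γ) ⊆ S}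
      univ_sets := by
        obtain ⟨N, hN⟩ := htop
        exact ⟨N, hN, fun _ _ => subset_univ _⟩
      sets_of_superset := by
        rintro S T ⟨N, hN, h⟩ hST
        exact ⟨N, hN, fun x hx => (h x hx).trans hST⟩
      inter_sets := by
        rintro S T ⟨N, hN, h⟩ ⟨N', hN', h'⟩
        obtain ⟨M, hM, h1, h2⟩ := hdir N N' hN hN'
        exact ⟨M, hM, fun x hx => subset_inter (h x (h1 hx)) (h' x (h2 hx))⟩ }
  have hmem : ∀ S : Set Γ, S ∈ 𝓕 ↔ ∃ N, L N ∧
      ∀ x : M, i x ∈ N → ((b.repr (ρ x)).support : Set Γ) ⊆ S := fun S => Iff.rfl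
  obtain ⟨h, hh⟩ := exists_unbounded 𝓕 (by
    rintro S ⟨N, hN, hS⟩ hfin
    obtain ⟨x, hx, hxF⟩ := hfg N hN (Submodule.span K (b '' S))
      (Submodule.fg_span (hfin.image _))
    exact hxF (b.mem_span_image.2 (hS x hx))) (by
    rintro S ⟨N, hN, hS⟩
    obtain ⟨c, hc⟩ := hcode N hN
    choose k hk x hx using fun γ : Γ => hsurj (b γ)
    refine ⟨fun γ => c (i (x γ)), ?_⟩
    intro γ hγ γ' hγ' hcc
    by_contra hne
    have h1 := hc _ _ hcc
    rw [← map_sub] at h1
    have h2 := hS _ h1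
    apply hγ
    apply h2
    rw [map_sub, hx, hx, map_sub, map_smul, map_smul, b.repr_self, b.repr_self]
    simp only [Finset.mem_coe, Finsupp.mem_support_iff, Finsupp.sub_apply, Finsupp.smul_apply,
      Finsupp.single_eq_same]
    rw [Finsupp.single_eq_of_ne (fun hγγ => hne hγγ)]
    simpa using hk γ)
  refine ⟨fun m => (Finsupp.supported K K {γ : Γ | h γ ≤ m}).comap b.repr.toLinearMap, ?_, ?_, ?_⟩
  · intro m m' hmm e he
    rw [Submodule.mem_comap] at he ⊢
    refine (Finsupp.supported_mono ?_) he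
    intro γ (hγ : h γ ≤ m)
    exact hγ.trans hmm
  · intro e
    refine ⟨(b.repr e).support.sup h, ?_⟩
    rw [Submodule.mem_comap, Finsupp.mem_supported]
    intro γ hγ
    exact Finset.le_sup (f := h) hγ
  · intro N hN m
    by_contra hcon
    push Not at hcon
    apply hh m
    rw [hmem]
    refine ⟨N, hN, ?_⟩
    intro x hx
    have := hcon x hx
    rw [Submodule.mem_comap, Finsupp.mem_supported] at this
    exact this

end Pool.Agent.SSP
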