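import Pool.Agent.SSP.Handle
import Pool.Agent.SSP.Sets

/-!
Every non-metrizable SSP abelian group has a proper dense SSP subgroup.
-/

namespace Pool.Agent.SSP

open Filter Topology Set

/-- Extension of a character with prescribed values on a sequence that is independent modulo `B`. -/
theorem exists_hom {G C : Type*} [AddCommGroup G] [AddCommGroup C] [DivisibleBy C ℤ]
    (B : AddSubgroup G) (x : ℕ → G)
    (hinj : ∀ l : ℕ →₀ ℤ, Finsupp.linearCombination ℤ x l ∈ B → l = 0) (c : ℕ → C) :
    ∃ χ : G →+ C, (∀ b ∈ B, χ b = 0) ∧ ∀ i, χ (x i) = c i := by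
  let f : (ℕ →₀ ℤ) →+ G ⧸ B :=
    (QuotientAddGroup.mk' B).comp (Finsupp.linearCombination ℤ x).toAddMonoidHom
  have hf : Function.Injective f := by
    rw [injective_iff_map_eq_zero]
    intro l hl
    apply hinj
    exact (QuotientAddGroup.eq_zero_iff _).1 hl
  obtain ⟨h, hh⟩ := (Module.Baer.of_divisible C).extension_property_addMonoidHom f hf
    (Finsupp.linearCombination ℤ c).toAddMonoidHom
  refine ⟨h.comp (QuotientAddGroup.mk' B), ?_, ?_⟩
  · intro b hb
    have : (QuotientAddGroup.mk' B) b = 0 := (QuotientAddGroup.eq_zero_iff _).2 hb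
    rw [AddMonoidHom.comp_apply, this, map_zero]
  · intro i
    have h1 := DFunLike.congr_fun hh (Finsupp.single i 1)
    have h2 : f (Finsupp.single i 1) = (QuotientAddGroup.mk' B) (x i) := by
      show (QuotientAddGroup.mk' B) (Finsupp.linearCombination ℤ x (Finsupp.single i 1)) = _
      rw [Finsupp.linearCombination_single, one_smul]
    rw [AddMonoidHom.comp_apply, ← h2]
    rw [AddMonoidHom.comp_apply] at h1
    rw [h1]
    show Finsupp.linearCombination ℤ c (Finsupp.single i 1) = _
    rw [Finsupp.linearCombination_single, one_smul]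

/-- Independence from levels of a filtration by pure subgroups. -/
theorem independent_of_levels {G : Type*} [AddCommGroup G] (A : ℕ → AddSubgroup G)
    (hmono : Monotone A) (hpure : ∀ m (k : ℤ) x, k ≠ 0 → k • x ∈ A m → x ∈ A m)
    (x : ℕ → G) (μ : ℕ → ℕ) (hμ : Monotone μ) (h1 : ∀ i, x i ∈ A (μ (i + 1)))
    (h2 : ∀ i, x i ∉ A (μ i)) (l : ℕ →₀ ℤ)
    (hl : Finsupp.linearCombination ℤ x l ∈ A (μ 0)) : l = 0 := by
  classical
  by_contra hne
  have hs : l.support.Nonempty := Finsupp.support_nonempty_iff.2 hne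
  set j := l.support.max' hs with hj
  have hjs : j ∈ l.support := Finset.max'_mem _ _
  have hlj : l j ≠ 0 := Finsupp.mem_support_iff.1 hjs
  apply h2 j
  apply hpure (μ j) (l j) (x j) hlj
  have e : Finsupp.linearCombination ℤ x l
      = l j • x j + ∑ i ∈ l.support.erase j, l i • x i := by
    rw [Finsupp.linearCombination_apply, Finsupp.sum, ← Finset.add_sum_erase _ _ hjs]
  have hrest : ∑ i ∈ l.support.erase j, l i • x i ∈ A (μ j) := by
    refine AddSubgroup.sum_mem _ ?_
    intro i hi
    have hij : i < j := lt_of_le_of_ne (Finset.le_max' _ _ (Finset.mem_of_mem_erase hi))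
      (Finset.ne_of_mem_erase hi)
    exact AddSubgroup.zsmul_mem _ (hmono (hμ hij) (h1 i)) _
  have h3 : Finsupp.linearCombination ℤ x l ∈ A (μ j) := hmono (hμ (Nat.zero_le _)) hl
  rw [e] at h3
  have := (A (μ j)).sub_mem h3 hrest
  simpa using this

/-- a sequence taking every value of a countable type infinitely often -/
theorem exists_enum (C : Type*) [Countable C] [Nonempty C] :
    ∃ a : ℕ → C, ∀ c, ∃ᶠ j in atTop, a j = c := by
  obtain ⟨s, hs⟩ := exists_surjective_nat C
  refine ⟨fun n => s (Nat.unpair n).1, ?_⟩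
  intro c
  obtain ⟨k, rfl⟩ := hs c
  rw [frequently_atTop]
  intro N
  exact ⟨Nat.pair k N, Nat.right_le_pair _ _, by simp⟩

variable {G : Type*} [AddCommGroup G] [TopologicalSpace G] [IsTopologicalAddGroup G]

/-- In a non-metrizable SSP group the members of `Lam` are nontrivial. -/
theorem IsSSP.lam_ne_bot [T2Space G] (hG : IsSSP G) (hm : ¬ TopologicalSpace.MetrizableSpace G)
    {N : AddSubgroup G} (hN : Lam N) : ∃ x ∈ N, x ≠ 0 := by
  by_contra hcon
  push Not at hcon
  obtain ⟨W, hW, hWN⟩ := hN
  apply hm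
  have hbasis : (𝓝 (0 : G)).HasBasis (fun _ : ℕ => True) W := by
    refine hasBasis_iff.2 ?_
    intro O
    constructor
    · intro hO
      by_contra hcon2
      push Not at hcon2
      obtain ⟨V, hV, hVO⟩ := exists_chain (fun _ => O) (fun _ => hO)
      -- the open sets `W n \ closure (V 1)`
      have hcl : ∀ x : G, x ∈ closure (V 1) → x ∈ O := by
        intro x hx
        have : ∃ v ∈ V 1, x - v ∈ V 1 := by
          rw [mem_closure_iff] at hx
          obtain ⟨v, hv1, hv2⟩ := hx {g | x - g ∈ V 1}
            ((hV.isOpen 1).preimage (continuous_const.sub continuous_id))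
            (by simpa using hV.zero_mem 1)
          exact ⟨v, hv2, hv1⟩
        obtain ⟨v, hv, hxv⟩ := this
        have := hVO 0 (hV.add_mem 0 _ _ hxv hv)
        simpa using this
      obtain ⟨l, z, k, hk, hz, hU⟩ := hG.select (fun n => W n ∩ (closure (V 1))ᶜ)
        (fun n => (hW.isOpen n).inter isClosed_closure.isOpen_compl)
        (fun n => by
          have := hcon2 n trivial
          rw [not_subset] at this
          obtain ⟨a, ha, haO⟩ := this
          exact ⟨a, ha, fun h => haO (hcl a h)⟩)
      have hl : l ∈ N := by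
        rw [hWN]
        intro n
        have := hW.limit_mem (n := n) (y := fun i => l + z i) (a := 0) (l := l)
          (by simpa using hz.const_add l) (by
            refine Eventually.frequently ?_
            filter_upwards [hk.tendsto_atTop.eventually_ge_atTop (n + 1)] with i hi
            simpa using hW.anti hi (hU i).1)
        simpa using this
      have hl0 := hcon l hl
      subst hl0
      have hev := hz.eventually (hV.mem_nhds 1)
      obtain ⟨i, hi⟩ := hev.exists
      have hi' : z i ∈ V 1 := hi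
      refine (hU i).2 (subset_closure ?_)
      rw [zero_add]
      exact hi'
    · rintro ⟨n, -, hn⟩
      exact mem_of_superset (hW.mem_nhds n) hn
  have : (𝓝 (0 : G)).IsCountablyGenerated := hbasis.isCountablyGenerated
  let _ := IsTopologicalAddGroup.rightUniformSpace G
  have := isUniformAddGroup_of_addCommGroup (G := G)
  have : (uniformity G).IsCountablyGenerated := IsUniformAddGroup.uniformity_countably_generated
  exact UniformSpace.metrizableSpace

/-- `d N₁ = 0` makes `dG` small. -/
theorem IsSSP.exists_lam_mul [T2Space G] (hG : IsSSP G) (d : ℕ) {N₁ : AddSubgroup G}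
    (hN₁ : Lam N₁) (hd : ∀ x ∈ N₁, d • x = 0) :
    ∃ M : AddSubgroup G, Lam M ∧ M ≤ N₁ ∧ ∀ g : G, d • g ∈ M → d • g = 0 := by
  classical
  obtain ⟨V, hV, hVN⟩ := hN₁
  choose F hF using fun n => hG.totBdd (V n) (hV.mem_nhds n)
  -- the choice of small members
  have hcode : ∀ (n : ℕ) (f : G), ∃ N'' : AddSubgroup G, Lam N'' ∧
      ((∃ N, Lam N ∧ ∀ g, g - f ∈ V n → d • g ∉ N) → ∀ g, g - f ∈ V n → d • g ∉ N'') := by
    intro n f
    by_cases h : ∃ N, Lam N ∧ ∀ g, g - f ∈ V n → d • g ∉ N
    · obtain ⟨N, hN, hN'⟩ := h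
      exact ⟨N, hN, fun _ => hN'⟩
    · exact ⟨⊤, lam_top, fun h' => absurd h' h⟩
  choose P hP hP' using hcode
  -- countable family
  have hcount : (⋃ n, ((F n : Finset G) : Set G)).Countable :=
    countable_iUnion fun n => (F n).countable_toSet
  by_cases hemp : (⋃ n, ((F n : Finset G) : Set G)) = ∅
  · exfalso
    obtain ⟨f, hf, _⟩ := hF 0 0
    have : f ∈ (⋃ n, ((F n : Finset G) : Set G)) := mem_iUnion.2 ⟨0, hf⟩
    rw [hemp] at this
    exact this
  obtain ⟨s, hs⟩ := hcount.exists_eq_range (nonempty_iff_ne_empty.2 hemp)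
  obtain ⟨M, hM, hMP, _⟩ := exists_lam_le (fun j => P (Nat.unpair j).1 (s (Nat.unpair j).2))
    (fun j => hP _ _) (fun _ => univ) (fun _ => univ_mem)
  obtain ⟨M', hM', hMM', hMN⟩ := lam_inf hM (⟨V, hV, hVN⟩ : Lam N₁)
  refine ⟨M', hM', hMN, ?_⟩
  intro g hg
  by_contra hne
  obtain ⟨Ny, hNy, hy⟩ := exists_lam_notMem hne
  obtain ⟨W, hW, hWN⟩ := hNy
  -- some `V`-neighbourhood of `g` is mapped off `Ny`
  have key : ∃ k, ∀ v ∈ V k, d • (g + v) ∉ Ny := by
    by_contra hcon
    push Not at hcon
    choose v hv hvN using hcon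
    obtain ⟨O, hO, hOW⟩ := exists_chain (fun n => {w : G | d • w ∈ W n}) (by
      intro n
      have : IsOpen {w : G | d • w ∈ W n} := (hW.isOpen n).preimage (continuous_nsmul d)
      exact this.mem_nhds (by simpa using hW.zero_mem n))
    obtain ⟨l, z, k, hk, hz, hU⟩ := hG.select (fun n => {a | a - v n ∈ O n ∩ V n})
      (fun n => isOpen_translate ((hO.isOpen n).inter (hV.isOpen n)) _)
      (fun n => ⟨v n, by
        show v n - v n ∈ O n ∩ V n
        rw [sub_self]
        exact ⟨hO.zero_mem _, hV.zero_mem _⟩⟩)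
    have hzl : Tendsto (fun i => l + z i) atTop (𝓝 l) := by simpa using hz.const_add l
    have hl : l ∈ N₁ := by
      rw [hVN]
      intro n
      have := hV.limit_mem (n := n) (a := 0) hzl (by
        refine Eventually.frequently ?_
        filter_upwards [hk.tendsto_atTop.eventually_ge_atTop (n + 2)] with i hi
        have h1 : l + z i - v (k i) ∈ V (n + 2) := hV.anti hi (hU i).2
        have h2 : v (k i) ∈ V (n + 2) := hV.anti hi (hv (k i))
        have := hV.add_mem _ _ _ h1 h2
        simpa using this)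
      simpa using this
    apply hy
    rw [hWN]
    intro n
    have hlim : Tendsto (fun i => d • g + d • (l + z i)) atTop (𝓝 (d • g)) := by
      have h1 : Tendsto (fun i => d • (l + z i)) atTop (𝓝 (d • l)) := ((continuous_nsmul d).tendsto l).comp hzl
      have h2 := h1.const_add (d • g)
      rwa [hd l hl, add_zero] at h2
    have := hW.limit_mem (n := n) (a := 0) hlim (by
      refine Eventually.frequently ?_
      filter_upwards [hk.tendsto_atTop.eventually_ge_atTop (n + 2)] with i hi
      have h1 : d • (l + z i - v (k i)) ∈ W (n + 2) := hW.anti hi (hOW (k i) (hU i).1)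
      have h2 : d • (g + v (k i)) ∈ W (n + 2) := (hWN _).1 (hvN (k i)) _
      have h3 := hW.add_mem _ _ _ h1 h2
      have e : d • (l + z i - v (k i)) + d • (g + v (k i)) = d • g + d • (l + z i) - 0 := by
        rw [← smul_add, ← smul_add, sub_zero]
        congr 1
        abel
      rwa [e] at h3)
    simpa using this
  obtain ⟨k, hkv⟩ := key
  obtain ⟨f, hf, hgf⟩ := hF (k + 1) g
  have hfs : f ∈ range s := by
    rw [← hs]
    exact mem_iUnion.2 ⟨k + 1, hf⟩
  obtain ⟨j, rfl⟩ := hfs
  have h1 : ∀ g' : G, g' - s j ∈ V (k + 1) → d • g' ∉ Ny := by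
    intro g' hg'
    have h2 := hV.sub_mem hg' hgf
    have h3 := hkv _ h2
    have e : g + (g' - s j - (g - s j)) = g' := by abel
    rwa [e] at h3
  have h2 := hP' (k + 1) (s j) ⟨Ny, ⟨W, hW, hWN⟩, h1⟩ g hgf
  apply h2
  have h3 := hMP (Nat.pair (k + 1) j) (hMM' hg)
  simpa using h3

end Pool.Agent.SSP
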